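import Pool.Agent.JT.CircDefs
import Pool.Agent.KD.Defs

/-! Circuits as deterministic programs with a stack; the number of variables read by the recursive
evaluation. -/

namespace Pool.Agent.JT

variable {N : ℕ}

/-- Recursive evaluation from left to right with short-circuiting and without memory.
`C.Reads y w b t` means: the evaluation of the node `w` on the input `y` returns `b` and reads input
variables `t` times altogether. The evaluation of an input variable reads it. The evaluation of a gate
first evaluates its first input; then a conjunction returns `false` if the result is `false`, and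
otherwise evaluates the second input and returns its result; dually for disjunctions. Results are not
stored: a node is evaluated again each time its value is needed. -/
inductive Circuit.Reads (C : Circuit N) (y : Fin N → Bool) : Fin N ⊕ Fin C.size → Bool → ℕ → Prop
  | leaf (i : Fin N) : Circuit.Reads C y (.inl i) (y i) 1
  | and_false {g : Fin C.size} {a b : Fin N ⊕ Fin (g : ℕ)} {t : ℕ} :
      C.gate g = .and a b → Circuit.Reads C y (C.node a) false t →
      Circuit.Reads C y (.inr g) false t
  | and_true {g : Fin C.size} {a b : Fin N ⊕ Fin (g : ℕ)} {v : Bool} {t t' : ℕ} :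
      C.gate g = .and a b → Circuit.Reads C y (C.node a) true t →
      Circuit.Reads C y (C.node b) v t' → Circuit.Reads C y (.inr g) v (t + t')
  | or_true {g : Fin C.size} {a b : Fin N ⊕ Fin (g : ℕ)} {t : ℕ} :
      C.gate g = .or a b → Circuit.Reads C y (C.node a) true t →
      Circuit.Reads C y (.inr g) true t
  | or_false {g : Fin C.size} {a b : Fin N ⊕ Fin (g : ℕ)} {v : Bool} {t t' : ℕ} :
      C.gate g = .or a b → Circuit.Reads C y (C.node a) false t →
      Circuit.Reads C y (C.node b) v t' → Circuit.Reads C y (.inr g) v (t + t')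
  | not {g : Fin C.size} {a : Fin N ⊕ Fin (g : ℕ)} {v : Bool} {t : ℕ} :
      C.gate g = .not a → Circuit.Reads C y (C.node a) v t →
      Circuit.Reads C y (.inr g) (!v) t

end Pool.Agent.JT

namespace Pool.Agent.KG

open Pool.Agent.JT Pool.Agent.KNL Pool.Agent.KD

variable {N : ℕ}

/-- the nodes of the program: evaluate a node of the circuit (`ev`), return a bit (`ret`), the source and
the accepting node (`none`: accept; `src`) -/
inductive CNode (N G : ℕ) : Type
  /-- the source -/
  | src
  /-- the accepting node -/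
  | acc
  /-- a value is returned -/
  | ret (b : Bool)
  /-- a node is to be evaluated -/
  | ev (w : Fin N ⊕ Fin G)

/-- the nodes are the elements of a finite type -/
def CNode.equiv (N G : ℕ) : CNode N G ≃ (Bool ⊕ Bool) ⊕ (Fin N ⊕ Fin G) where
  toFun
    | .src => .inl (.inl false)
    | .acc => .inl (.inl true)
    | .ret b => .inl (.inr b)
    | .ev w => .inr w
  invFun
    | .inl (.inl false) => .src
    | .inl (.inl true) => .acc
    | .inl (.inr b) => .ret b
    | .inr w => .ev w
  left_inv w := by cases w <;> rfl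
  right_inv w := by
    rcases w with (b | b) | w
    · cases b <;> rfl
    · rfl
    · rfl

noncomputable instance (N G : ℕ) : Fintype (CNode N G) := Fintype.ofEquiv _ (CNode.equiv N G).symm

theorem card_CNode (N G : ℕ) : Fintype.card (CNode N G) = N + G + 4 := by
  rw [Fintype.card_congr (CNode.equiv N G)]
  simp
  ring

/-- the first input of a gate -/
def fstIn (C : Circuit N) (g : Fin C.size) : Fin N ⊕ Fin C.size :=
  match C.gate g with
  | .and a _ => C.node a
  | .or a _ => C.node a
  | .not a => C.node a

/-- what happens when the first input of a gate has returned -/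
def next (C : Circuit N) (g : Fin C.size) (u : Bool) : CNode N C.size :=
  match C.gate g with
  | .and _ b => if u then .ev (C.node b) else .ret false
  | .or _ b => if u then .ret true else .ev (C.node b)
  | .not _ => .ret (!u)

/-- the deterministic program with a stack that evaluates the circuit and accepts if the value is `true` -/
def prog (C : Circuit N) : SBP (CNode N C.size) (Option (Fin C.size)) (Fin N) where
  src := .src
  acc := .acc
  free _ _ := False
  test u i b v := u = .ev (.inl i) ∧ v = .ret b
  push u a v := (u = .src ∧ a = none ∧ v = .ev C.out) ∨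
    ∃ g, u = .ev (.inr g) ∧ a = some g ∧ v = .ev (fstIn C g)
  pop u a v := (u = .ret true ∧ a = none ∧ v = .acc) ∨
    ∃ g b, u = .ret b ∧ a = some g ∧ v = next C g b

theorem prog_det (C : Circuit N) : Det (prog C) where
  free_free h := h.elim
  free_test h := h.elim
  free_push h := h.elim
  free_pop h := h.elim
  test_test := by
    rintro u i b v i' b' v' ⟨rfl, rfl⟩ ⟨h, rfl⟩
    injection h with h
    injection h with h
    exact ⟨h, fun hb => by rw [hb]⟩
  test_push := by
    rintro u i b v a v' ⟨rfl, rfl⟩ (⟨h, _, _⟩ | ⟨g, h, _, _⟩)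
    · cases h
    · injection h with h
      cases h
  test_pop := by
    rintro u i b v a v' ⟨rfl, rfl⟩ (⟨h, _, _⟩ | ⟨g, b', h, _, _⟩)
    · cases h
    · cases h
  push_push := by
    rintro u a v a' v' (⟨rfl, rfl, rfl⟩ | ⟨g, rfl, rfl, rfl⟩) (⟨h, rfl, rfl⟩ | ⟨g', h, rfl, rfl⟩)
    · exact ⟨rfl, rfl⟩
    · cases h
    · cases h
    · injection h with h
      injection h with h
      subst h
      exact ⟨rfl, rfl⟩
  push_pop := by
    rintro u a v a' v' (⟨rfl, rfl, rfl⟩ | ⟨g, rfl, rfl, rfl⟩) (⟨h, _, _⟩ | ⟨g', b, h, _, _⟩)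
    all_goals cases h
  pop_pop := by
    rintro u a v v' (⟨rfl, rfl, rfl⟩ | ⟨g, b, rfl, rfl, rfl⟩) (⟨h, ha, rfl⟩ | ⟨g', b', h, ha, rfl⟩)
    · rfl
    · cases ha
    · cases ha
    · injection h with h
      injection ha with ha
      subst h ha
      rfl
  acc_free h := h.elim
  acc_test := by
    rintro i b v ⟨h, _⟩
    cases h
  acc_push := by
    rintro a v (⟨h, _, _⟩ | ⟨g, h, _, _⟩)
    all_goals cases h
  acc_pop := by
    rintro a v (⟨h, _, _⟩ | ⟨g, b, h, _, _⟩)
    all_goals cases h

theorem Reads.walk (C : Circuit N) (y : Fin N → Bool) {w : Fin N ⊕ Fin C.size} {b : Bool} {t : ℕ}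
    (h : C.Reads y w b t) (s : List (Option (Fin C.size))) (w' : CNode N C.size)
    (s' : List (Option (Fin C.size))) (l : List (Fin N))
    (hl : (prog C).Walk y (.ret b) s w' s' l) :
    ∃ l', (prog C).Walk y (.ev w) s w' s' l' ∧ l'.length = t + l.length := by
  induction h generalizing s w' s' l with
  | leaf i =>
    exact ⟨i :: l, SBP.Walk.test ⟨rfl, rfl⟩ hl, by simp [add_comm]⟩
  | @and_false g a b t hc _ ih =>
    have h1 : (prog C).Walk y (.ret false) (some g :: s) w' s' l :=
      SBP.Walk.pop (Or.inr ⟨g, false, rfl, rfl, by simp [next, hc]⟩) hl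
    obtain ⟨l', h2, h3⟩ := ih _ _ _ _ h1
    exact ⟨l', SBP.Walk.push (Or.inr ⟨g, rfl, rfl, by simp [fstIn, hc]⟩) h2, h3⟩
  | @and_true g a b v t t' hc _ _ ih1 ih2 =>
    obtain ⟨l2, h2, h3⟩ := ih2 _ _ _ _ hl
    have h1 : (prog C).Walk y (.ret true) (some g :: s) w' s' l2 :=
      SBP.Walk.pop (Or.inr ⟨g, true, rfl, rfl, by simp [next, hc]⟩) h2
    obtain ⟨l', h4, h5⟩ := ih1 _ _ _ _ h1
    exact ⟨l', SBP.Walk.push (Or.inr ⟨g, rfl, rfl, by simp [fstIn, hc]⟩) h4, by omega⟩
  | @or_true g a b t hc _ ih =>
    have h1 : (prog C).Walk y (.ret true) (some g :: s) w' s' l :=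
      SBP.Walk.pop (Or.inr ⟨g, true, rfl, rfl, by simp [next, hc]⟩) hl
    obtain ⟨l', h2, h3⟩ := ih _ _ _ _ h1
    exact ⟨l', SBP.Walk.push (Or.inr ⟨g, rfl, rfl, by simp [fstIn, hc]⟩) h2, h3⟩
  | @or_false g a b v t t' hc _ _ ih1 ih2 =>
    obtain ⟨l2, h2, h3⟩ := ih2 _ _ _ _ hl
    have h1 : (prog C).Walk y (.ret false) (some g :: s) w' s' l2 :=
      SBP.Walk.pop (Or.inr ⟨g, false, rfl, rfl, by simp [next, hc]⟩) h2
    obtain ⟨l', h4, h5⟩ := ih1 _ _ _ _ h1
    exact ⟨l', SBP.Walk.push (Or.inr ⟨g, rfl, rfl, by simp [fstIn, hc]⟩) h4, by omega⟩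
  | @not g a v t hc _ ih =>
    have h1 : (prog C).Walk y (.ret v) (some g :: s) w' s' l :=
      SBP.Walk.pop (Or.inr ⟨g, v, rfl, rfl, by simp [next, hc]⟩) hl
    obtain ⟨l', h2, h3⟩ := ih _ _ _ _ h1
    exact ⟨l', SBP.Walk.push (Or.inr ⟨g, rfl, rfl, by simp [fstIn, hc]⟩) h2, h3⟩

theorem walk_leaf (C : Circuit N) (y : Fin N → Bool) {i : Fin N} {s : List (Option (Fin C.size))}
    {l : List (Fin N)} (h : (prog C).Walk y (.ev (.inl i)) s .acc [] l) :
    ∃ l', l = i :: l' ∧ (prog C).Walk y (.ret (y i)) s .acc [] l' := by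
  cases h with
  | free h _ => exact h.elim
  | test h h' =>
    obtain ⟨h1, rfl⟩ := h
    injection h1 with h1
    injection h1 with h1
    subst h1
    exact ⟨_, rfl, h'⟩
  | push h h' =>
    rcases h with ⟨h, _, _⟩ | ⟨g, h, _, _⟩
    · cases h
    · injection h with h
      cases h
  | pop h h' =>
    rcases h with ⟨h, _, _⟩ | ⟨g, b, h, _, _⟩
    · cases h
    · cases h

theorem walk_gate (C : Circuit N) (y : Fin N → Bool) {g : Fin C.size} {s : List (Option (Fin C.size))}
    {l : List (Fin N)} (h : (prog C).Walk y (.ev (.inr g)) s .acc [] l) :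
    (prog C).Walk y (.ev (fstIn C g)) (some g :: s) .acc [] l := by
  cases h with
  | free h _ => exact h.elim
  | test h h' =>
    obtain ⟨h1, rfl⟩ := h
    injection h1 with h1
    cases h1
  | push h h' =>
    rcases h with ⟨h, _, _⟩ | ⟨g', h, rfl, rfl⟩
    · cases h
    · injection h with h
      injection h with h
      subst h
      exact h'
  | pop h h' =>
    rcases h with ⟨h, _, _⟩ | ⟨g', b, h, _, _⟩
    · cases h
    · cases h

theorem walk_ret (C : Circuit N) (y : Fin N → Bool) {b : Bool} {g : Fin C.size}
    {s : List (Option (Fin C.size))} {l : List (Fin N)}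
    (h : (prog C).Walk y (.ret b) (some g :: s) .acc [] l) :
    (prog C).Walk y (next C g b) s .acc [] l := by
  cases h with
  | free h _ => exact h.elim
  | test h h' =>
    obtain ⟨h1, rfl⟩ := h
    cases h1
  | push h h' =>
    rcases h with ⟨h, _, _⟩ | ⟨g', h, rfl, rfl⟩
    · cases h
    · cases h
  | pop h h' =>
    rcases h with ⟨h, ha, _⟩ | ⟨g', b', h, ha, hv⟩
    · cases ha
    · injection h with h
      injection ha with ha
      subst h ha hv
      exact h'

theorem walk_src (C : Circuit N) (y : Fin N → Bool) {l : List (Fin N)}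
    (h : (prog C).Walk y .src [] .acc [] l) : (prog C).Walk y (.ev C.out) [none] .acc [] l := by
  cases h with
  | free h _ => exact h.elim
  | test h h' =>
    obtain ⟨h1, rfl⟩ := h
    cases h1
  | push h h' =>
    rcases h with ⟨_, ha, hv⟩ | ⟨g', h, rfl, rfl⟩
    · subst ha hv
      exact h'
    · cases h

theorem walk_bot (C : Circuit N) (y : Fin N → Bool) {b : Bool} {l : List (Fin N)}
    (h : (prog C).Walk y (.ret b) [none] .acc [] l) : b = true ∧ l = [] := by
  cases h with
  | free h _ => exact h.elim
  | test h h' =>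
    obtain ⟨h1, rfl⟩ := h
    cases h1
  | push h h' =>
    rcases h with ⟨h, _, _⟩ | ⟨g', h, rfl, rfl⟩
    · cases h
    · cases h
  | pop h h' =>
    rcases h with ⟨h, _, hv⟩ | ⟨g', b', h, ha, hv⟩
    · injection h with h
      subst hv
      refine ⟨h, ?_⟩
      cases h' with
      | nil => rfl
      | free h _ => exact h.elim
      | test h _ =>
        obtain ⟨h1, _⟩ := h
        cases h1
      | push h _ =>
        rcases h with ⟨h, _, _⟩ | ⟨g', h, _, _⟩
        · cases h
        · cases h
    · cases ha

/-- a walk that starts with the evaluation of a node passes through its result -/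
theorem Reads.inv (C : Circuit N) (y : Fin N → Bool) {w : Fin N ⊕ Fin C.size} {b : Bool} {t : ℕ}
    (h : C.Reads y w b t) (s : List (Option (Fin C.size))) (l : List (Fin N))
    (hl : (prog C).Walk y (.ev w) s .acc [] l) :
    ∃ l', (prog C).Walk y (.ret b) s .acc [] l' ∧ l.length = t + l'.length := by
  induction h generalizing s l with
  | leaf i =>
    obtain ⟨l', rfl, h⟩ := walk_leaf C y hl
    exact ⟨l', h, by simp [add_comm]⟩
  | @and_false g a b t hc _ ih =>
    have h1 := walk_gate C y hl
    rw [show fstIn C g = C.node a by simp [fstIn, hc]] at h1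
    obtain ⟨l', h2, h3⟩ := ih _ _ h1
    have h4 := walk_ret C y h2
    rw [show next C g false = .ret false by simp [next, hc]] at h4
    exact ⟨l', h4, h3⟩
  | @and_true g a b v t t' hc _ _ ih1 ih2 =>
    have h1 := walk_gate C y hl
    rw [show fstIn C g = C.node a by simp [fstIn, hc]] at h1
    obtain ⟨l', h2, h3⟩ := ih1 _ _ h1
    have h4 := walk_ret C y h2
    rw [show next C g true = .ev (C.node b) by simp [next, hc]] at h4
    obtain ⟨l'', h5, h6⟩ := ih2 _ _ h4
    exact ⟨l'', h5, by omega⟩
  | @or_true g a b t hc _ ih =>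
    have h1 := walk_gate C y hl
    rw [show fstIn C g = C.node a by simp [fstIn, hc]] at h1
    obtain ⟨l', h2, h3⟩ := ih _ _ h1
    have h4 := walk_ret C y h2
    rw [show next C g true = .ret true by simp [next, hc]] at h4
    exact ⟨l', h4, h3⟩
  | @or_false g a b v t t' hc _ _ ih1 ih2 =>
    have h1 := walk_gate C y hl
    rw [show fstIn C g = C.node a by simp [fstIn, hc]] at h1
    obtain ⟨l', h2, h3⟩ := ih1 _ _ h1
    have h4 := walk_ret C y h2
    rw [show next C g false = .ev (C.node b) by simp [next, hc]] at h4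
    obtain ⟨l'', h5, h6⟩ := ih2 _ _ h4
    exact ⟨l'', h5, by omega⟩
  | @not g a v t hc _ ih =>
    have h1 := walk_gate C y hl
    rw [show fstIn C g = C.node a by simp [fstIn, hc]] at h1
    obtain ⟨l', h2, h3⟩ := ih _ _ h1
    have h4 := walk_ret C y h2
    rw [show next C g v = .ret (!v) by simp [next, hc]] at h4
    exact ⟨l', h4, h3⟩

theorem val_node (C : Circuit N) (y : Fin N → Bool) {g : Fin C.size}
    (w : Fin N ⊕ Fin (g : ℕ)) :
    C.val y (C.node w) = (match w with
      | .inl i => y i
      | .inr j => C.gateVal y j (j.2.trans g.2)) := by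
  cases w <;> rfl

theorem val_gate (C : Circuit N) (y : Fin N → Bool) (g : Fin C.size) :
    C.val y (.inr g) = (C.gate g).eval (fun w => C.val y (C.node w)) := by
  change C.gateVal y g g.2 = _
  rw [Circuit.gateVal]
  congr 1
  funext w
  rw [val_node C]
  cases w <;> rfl

/-- every node has an evaluation, which returns its value -/
theorem exists_reads (C : Circuit N) (y : Fin N → Bool) :
    ∀ w, ∃ t, C.Reads y w (C.val y w) t := by
  have key : ∀ g : ℕ, ∀ hg : g < C.size, ∃ t, C.Reads y (.inr ⟨g, hg⟩) (C.val y (.inr ⟨g, hg⟩)) t := by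
    intro g
    induction g using Nat.strong_induction_on with
    | _ g ih =>
      intro hg
      have hn : ∀ w : Fin N ⊕ Fin (g : ℕ), ∃ t, C.Reads y (C.node (g := ⟨g, hg⟩) w)
          (C.val y (C.node (g := ⟨g, hg⟩) w)) t := by
        intro w
        cases w with
        | inl i => exact ⟨1, Circuit.Reads.leaf i⟩
        | inr j => exact ih j j.2 (j.2.trans hg)
      rw [val_gate C]
      cases hc : C.gate ⟨g, hg⟩ with
      | and a b =>
        obtain ⟨t, ht⟩ := hn a
        obtain ⟨t', ht'⟩ := hn b
        cases hv : C.val y (C.node (g := ⟨g, hg⟩) a) with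
        | false =>
          rw [hv] at ht
          simp only [Gate.eval, hv, Bool.false_and]
          exact ⟨_, Circuit.Reads.and_false hc ht⟩
        | true =>
          rw [hv] at ht
          simp only [Gate.eval, hv, Bool.true_and]
          exact ⟨_, Circuit.Reads.and_true hc ht ht'⟩
      | or a b =>
        obtain ⟨t, ht⟩ := hn a
        obtain ⟨t', ht'⟩ := hn b
        cases hv : C.val y (C.node (g := ⟨g, hg⟩) a) with
        | false =>
          rw [hv] at ht
          simp only [Gate.eval, hv, Bool.false_or]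
          exact ⟨_, Circuit.Reads.or_false hc ht ht'⟩
        | true =>
          rw [hv] at ht
          simp only [Gate.eval, hv, Bool.true_or]
          exact ⟨_, Circuit.Reads.or_true hc ht⟩
      | not a =>
        obtain ⟨t, ht⟩ := hn a
        simp only [Gate.eval]
        exact ⟨_, Circuit.Reads.not hc ht⟩
  intro w
  cases w with
  | inl i => exact ⟨1, Circuit.Reads.leaf i⟩
  | inr g => exact key g g.2

/-- the evaluation returns the value of the node -/
theorem reads_val (C : Circuit N) (y : Fin N → Bool) {w : Fin N ⊕ Fin C.size} {b : Bool} {t : ℕ}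
    (h : C.Reads y w b t) : b = C.val y w := by
  induction h with
  | leaf i => rfl
  | @and_false g a b t hc _ ih => rw [val_gate C, hc]; simp [Gate.eval, ← ih]
  | @and_true g a b v t t' hc _ _ ih1 ih2 => rw [val_gate C, hc]; simp [Gate.eval, ← ih1, ← ih2]
  | @or_true g a b t hc _ ih => rw [val_gate C, hc]; simp [Gate.eval, ← ih]
  | @or_false g a b v t t' hc _ _ ih1 ih2 => rw [val_gate C, hc]; simp [Gate.eval, ← ih1, ← ih2]
  | @not g a v t hc _ ih => rw [val_gate C, hc]; simp [Gate.eval, ← ih]

/-- the program accepts with `t` tests if and only if the evaluation returns `true` with `t` reads -/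
theorem prog_acc (C : Circuit N) (y : Fin N → Bool) (t : ℕ) :
    C.Reads y C.out true t ↔ ∃ l, (prog C).AccWalk y l ∧ l.length = t := by
  constructor
  · intro h
    have h1 : (prog C).Walk y (.ret true) [none] .acc [] [] :=
      SBP.Walk.pop (Or.inl ⟨rfl, rfl, rfl⟩) (SBP.Walk.nil _ _)
    obtain ⟨l', h2, h3⟩ := Reads.walk C y h _ _ _ _ h1
    exact ⟨l', SBP.Walk.push (Or.inl ⟨rfl, rfl, rfl⟩) h2, by simpa using h3⟩
  · rintro ⟨l, h, rfl⟩
    have h1 := walk_src C y h
    obtain ⟨t, ht⟩ := exists_reads C y C.out
    obtain ⟨l', h2, h3⟩ := Reads.inv C y ht _ _ h1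
    obtain ⟨h4, rfl⟩ := walk_bot C y h2
    rw [h4] at ht
    have : l.length = t := by simpa using h3
    rw [this]
    exact ht

/-- Every circuit is a deterministic program with a stack: it accepts exactly the words on which the
value of the circuit is `true`, and the number of its tests is the number of the reads of the recursive
evaluation. -/
theorem circ_prog (C : Circuit N) : ∃ (V Γ : Type) (_ : Fintype V) (P : SBP V Γ (Fin N)),
    Det P ∧ Fintype.card V = N + C.size + 4 ∧
      ∀ y t, C.Reads y C.out true t ↔ ∃ l, P.AccWalk y l ∧ l.length = t :=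
  ⟨_, _, inferInstance, prog C, prog_det C, card_CNode N C.size, fun y t => prog_acc C y t⟩

end Pool.Agent.KG
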