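import Pool.Agent.KF.Defs

/-! The generator. -/

namespace Pool.Agent.KG

open Pool.Agent.KF

/-- the `M` coefficients of `b * a ^ x` for the word `s` -/
noncomputable def extra (s : List Bool) : List Bool :=
  List.ofFn fun j : Fin (27 * nn s.length) => decide (out s j = 1)

/-- **The generator**: the first `r` coefficients of `b * a ^ x` are appended to the word `s`. -/
noncomputable def gen (r : ℕ) (s : List Bool) : List Bool := s ++ (extra s).take r

/-- the letters of a word as an assignment of `m` variables -/
def toIn (m : ℕ) (w : List Bool) : Fin m → Bool := fun i => w.getD i false

/-- the probability of the property `S` of a uniformly random word of length `m` -/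
noncomputable def pr {m : ℕ} (S : (Fin m → Bool) → Prop) : ℝ := Nat.card {y // S y} / 2 ^ m

end Pool.Agent.KG
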