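import Pool.Agent.KG.Gen
import Pool.Agent.KG.Circ
import Pool.Agent.KF.FamX

/-! The generator fools circuits that are evaluated recursively and deterministic programs with a stack. -/

namespace Pool.Agent.KG

open Finset Pool.Agent.SemRO Pool.Agent.KD Pool.Agent.KNL Pool.Agent.KE Pool.Agent.KF
open Pool.Agent.JT (Circuit)

lemma gen_length {N r : ℕ} (hr : r ≤ 27 * nn N) (s : List Bool) (hs : s.length = N) :
    (gen r s).length = N + r := by
  unfold gen extra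
  rw [List.length_append, List.length_take, List.length_ofFn, hs, min_eq_left hr]

lemma pr_eq {m : ℕ} (S : (Fin m → Bool) → Prop) (A : Finset (Fin m → Bool)) (h : ∀ y, y ∈ A ↔ S y) :
    pr S = (A.card : ℝ) / 2 ^ m := by
  classical
  unfold pr
  congr 2
  rw [Nat.card_eq_fintype_card, Fintype.card_subtype]
  congr 1
  ext y
  rw [Finset.mem_filter, h]
  exact ⟨fun h => h.2, fun h => ⟨Finset.mem_univ _, h⟩⟩

/-- **The generator fools circuits and programs.** -/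
theorem fools : ∃ c : ℕ, ∀ k : ℕ, 2 ≤ k → ∀ N s r : ℕ, s = N / k ^ (c * k) → 1 ≤ s → r ≤ s →
    (∀ w : List Bool, w.length = N → (gen r w).length = N + r) ∧
    (∀ C : Circuit (N + r), C.size ≤ 2 ^ s →
      |pr (fun x : Fin N → Bool => ∃ t ≤ k * (N + r),
          C.Reads (toIn (N + r) (gen r (List.ofFn x))) C.out true t) -
        pr (fun w : Fin (N + r) → Bool => ∃ t ≤ k * (N + r), C.Reads w C.out true t)| ≤ 1 / 2 ^ s) ∧
    ∀ (V Γ : Type) [Fintype V] (P : SBP V Γ (Fin (N + r))), Det P → Fintype.card V ≤ 2 ^ s →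
      |pr (fun x : Fin N → Bool => ∃ l,
          P.AccWalk (toIn (N + r) (gen r (List.ofFn x))) l ∧ l.length ≤ k * (N + r)) -
        pr (fun w : Fin (N + r) → Bool => ∃ l, P.AccWalk w l ∧ l.length ≤ k * (N + r))| ≤ 1 / 2 ^ s := by
  classical
  obtain ⟨c, hc⟩ := gen_prog splitStack familyX
  refine ⟨2 * c + 40, fun k hk N s r hs hs1 hrs => ?_⟩
  have hk0 : 0 < k := by omega
  obtain ⟨D, hD⟩ : ∃ D, D = k ^ (c * k) := ⟨_, rfl⟩
  obtain ⟨D', hD'⟩ : ∃ D', D' = k ^ ((2 * c + 40) * k) := ⟨_, rfl⟩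
  rw [← hD'] at hs
  have hD1 : 1 ≤ D := by rw [hD]; exact Nat.one_le_pow _ _ hk0
  have hp40 : 2 ^ 40 ≤ k ^ (20 * k) := by
    calc 2 ^ 40 ≤ k ^ 40 := Nat.pow_le_pow_left hk 40
      _ ≤ k ^ (20 * k) := Nat.pow_le_pow_right hk0 (by nlinarith)
  have hDD : (D * 2 ^ 40) * (D * 2 ^ 40) ≤ D' := by
    calc (D * 2 ^ 40) * (D * 2 ^ 40) ≤ (D * k ^ (20 * k)) * (D * k ^ (20 * k)) :=
          Nat.mul_le_mul (Nat.mul_le_mul_left _ hp40) (Nat.mul_le_mul_left _ hp40)
      _ = D' := by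
          rw [hD, hD', ← pow_add, ← pow_add]
          congr 1
          ring
  have hD'0 : 0 < D' := lt_of_lt_of_le (by positivity) hDD
  have hsN : s * D' ≤ N := by rw [hs]; exact Nat.div_mul_le_self _ _
  have hD'N : D' ≤ N := le_trans (Nat.le_mul_of_pos_left _ hs1) hsN
  obtain ⟨m, hm⟩ : ∃ m, m = Nat.sqrt N := ⟨_, rfl⟩
  have hm1 : m * m ≤ N := by rw [hm]; exact Nat.sqrt_le N
  have hm2 : N < (m + 1) * (m + 1) := by rw [hm]; exact Nat.lt_succ_sqrt N
  have hDm : D * 2 ^ 40 ≤ m := by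
    rw [hm, Nat.le_sqrt]
    exact hDD.trans hD'N
  have hDN : D ≤ N := by
    calc D ≤ D * 2 ^ 40 := Nat.le_mul_of_pos_right _ (by positivity)
      _ ≤ m := hDm
      _ ≤ m * m := Nat.le_mul_of_pos_left _ (by
          have : 0 < D * 2 ^ 40 := by positivity
          omega)
      _ ≤ N := hm1
  have hDs : 4 * s * D ≤ N := by
    calc 4 * s * D = s * (4 * D) := by ring
      _ ≤ s * D' := by
          refine Nat.mul_le_mul_left _ (le_trans ?_ hDD)
          calc 4 * D = D * 4 := by ring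
            _ ≤ (D * 2 ^ 40) * 2 ^ 40 := Nat.mul_le_mul (Nat.le_mul_of_pos_right _ (by positivity)) (by norm_num)
            _ ≤ (D * 2 ^ 40) * (D * 2 ^ 40) := Nat.mul_le_mul_left _ (Nat.le_mul_of_pos_left _ hD1)
      _ ≤ N := hsN
  have hDr : r * D ≤ N := by
    calc r * D ≤ s * D := Nat.mul_le_mul_right _ hrs
      _ ≤ 4 * s * D := Nat.mul_le_mul_right _ (by omega)
      _ ≤ N := hDs
  have hr24 : r * 2 ^ 24 ≤ N := by
    calc r * 2 ^ 24 ≤ s * D' := by
          refine Nat.mul_le_mul hrs (le_trans ?_ hDD)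
          calc 2 ^ 24 ≤ 1 * 2 ^ 40 * (1 * 2 ^ 40) := by norm_num
            _ ≤ (D * 2 ^ 40) * (D * 2 ^ 40) :=
                Nat.mul_le_mul (Nat.mul_le_mul_right _ hD1) (Nat.mul_le_mul_right _ hD1)
      _ ≤ N := hsN
  have h165 := lt_nn N
  have hrM : r ≤ 27 * nn N := by omega
  have hDm2 : D * (4 * m + 6) ≤ N := by
    have h1 : 4 * m + 6 ≤ 2 ^ 40 * m := by
      have : 0 < m := lt_of_lt_of_le (Nat.mul_pos hD1 (by norm_num)) hDm
      omega
    calc D * (4 * m + 6) ≤ D * (2 ^ 40 * m) := Nat.mul_le_mul_left _ h1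
      _ = D * 2 ^ 40 * m := by ring
      _ ≤ m * m := Nat.mul_le_mul_right _ hDm
      _ ≤ N := hm1
  have h2N : 2 * N + 4 ≤ 2 ^ (2 * m + 3) := by
    have h2 : m + 1 ≤ 2 ^ m := Nat.lt_two_pow_self
    have h3 : N + 1 ≤ 2 ^ m * 2 ^ m := hm2.trans_le (Nat.mul_le_mul h2 h2)
    have h4 : 2 ^ (2 * m + 3) = 8 * (2 ^ m * 2 ^ m) := by rw [two_mul, pow_add, pow_add]; ring
    rw [h4]
    omega
  have hDR : (0 : ℝ) < (k : ℝ) ^ (c * k) := by
    have : (0 : ℝ) < k := by exact_mod_cast hk0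
    positivity
  have hDcast : ((D : ℕ) : ℝ) = (k : ℝ) ^ (c * k) := by rw [hD]; push_cast; rfl
  obtain ⟨τ, hτ⟩ : ∃ τ : ℝ, τ = (N : ℝ) / (k : ℝ) ^ (c * k) := ⟨_, rfl⟩
  have hτs : 4 * (s : ℝ) ≤ τ := by
    rw [hτ, le_div_iff₀ hDR, ← hDcast]
    exact_mod_cast hDs
  have hs1R : (1 : ℝ) ≤ s := by exact_mod_cast hs1
  have hτm : 4 * (m : ℝ) + 6 ≤ τ := by
    rw [hτ, le_div_iff₀ hDR, ← hDcast]
    have h : (4 * m + 6) * D ≤ N := by rw [mul_comm]; exact hDm2
    exact_mod_cast h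
  have hcN : k ^ (c * k) ≤ N := by rw [← hD]; exact hDN
  have hcr : r * k ^ (c * k) ≤ N := by rw [← hD]; exact hDr
  have herr : (1 : ℝ) / 2 ^ (4 * (N : ℝ) / (k : ℝ) ^ (c * k)) ≤ 1 / 2 ^ s := by
    rw [mul_div_assoc, ← hτ]
    refine div_le_div_of_nonneg_left (by norm_num) (by positivity) ?_
    rw [← Real.rpow_natCast]
    exact Real.rpow_le_rpow_of_exponent_le (by norm_num) (by linarith)
  have hprog : ∀ (V Γ : Type) [Fintype V] (P : SBP V Γ (Fin (N + r))), Det P →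
      (Fintype.card V : ℝ) ≤ 2 ^ τ →
      |pr (fun x : Fin N → Bool => ∃ l,
          P.AccWalk (toIn (N + r) (gen r (List.ofFn x))) l ∧ l.length ≤ k * (N + r)) -
        pr (fun w : Fin (N + r) → Bool => ∃ l, P.AccWalk w l ∧ l.length ≤ k * (N + r))| ≤ 1 / 2 ^ s := by
    intro V Γ _ P hP hV
    obtain ⟨A, hA⟩ : ∃ A : Finset (Fin N → Bool), ∀ y, y ∈ A ↔ ∃ l,
        P.AccWalk (toIn (N + r) (gen r (List.ofFn y))) l ∧ l.length ≤ k * (N + r) :=
      ⟨univ.filter (fun y => ∃ l,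
        P.AccWalk (toIn (N + r) (gen r (List.ofFn y))) l ∧ l.length ≤ k * (N + r)), fun y => by
        rw [Finset.mem_filter]
        exact ⟨fun h => h.2, fun h => ⟨Finset.mem_univ _, h⟩⟩⟩
    obtain ⟨B, hB⟩ : ∃ B : Finset (Fin (N + r) → Bool), ∀ y, y ∈ B ↔ ∃ l,
        P.AccWalk y l ∧ l.length ≤ k * (N + r) :=
      ⟨univ.filter (fun y => ∃ l, P.AccWalk y l ∧ l.length ≤ k * (N + r)), fun y => by
        rw [Finset.mem_filter]
        exact ⟨fun h => h.2, fun h => ⟨Finset.mem_univ _, h⟩⟩⟩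
    rw [pr_eq _ A hA, pr_eq _ B hB]
    exact (hc k hk N r hcN hcr V Γ P hP (by rw [← hτ]; exact hV) A B hA hB).trans herr
  refine ⟨fun w hw => gen_length hrM w hw, ?_, ?_⟩
  · intro C hC
    obtain ⟨V, Γ, _, P, hP, hcard, hacc⟩ := circ_prog C
    have hV : (Fintype.card V : ℝ) ≤ 2 ^ τ := by
      have h1 : Fintype.card V ≤ 2 ^ s + 2 ^ (2 * m + 3) := by
        rw [hcard]
        have : r ≤ N := by omega
        omega
      have h2 : ((2 ^ s + 2 ^ (2 * m + 3) : ℕ) : ℝ) ≤ 2 ^ τ := by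
        push_cast
        have e1 : (2 : ℝ) ^ s ≤ 2 ^ (τ - 1) := by
          rw [← Real.rpow_natCast]
          exact Real.rpow_le_rpow_of_exponent_le (by norm_num) (by linarith)
        have e2 : (2 : ℝ) ^ (2 * m + 3) ≤ 2 ^ (τ - 1) := by
          rw [← Real.rpow_natCast]
          refine Real.rpow_le_rpow_of_exponent_le (by norm_num) ?_
          push_cast
          have : (0 : ℝ) ≤ m := Nat.cast_nonneg _
          linarith
        have e3 : (2 : ℝ) ^ τ = 2 ^ (τ - 1) * 2 := by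
          rw [← Real.rpow_add_one (by norm_num)]
          congr 1
          ring
        rw [e3]
        linarith
      exact le_trans (by exact_mod_cast h1) h2
    have h := hprog V Γ P hP hV
    have e : ∀ y : Fin (N + r) → Bool, (∃ t ≤ k * (N + r), C.Reads y C.out true t) ↔
        ∃ l, P.AccWalk y l ∧ l.length ≤ k * (N + r) := by
      intro y
      constructor
      · rintro ⟨t, ht, hr⟩
        obtain ⟨l, hl, hlt⟩ := (hacc y t).1 hr
        exact ⟨l, hl, by omega⟩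
      · rintro ⟨l, hl, hlt⟩
        exact ⟨l.length, hlt, (hacc y l.length).2 ⟨l, hl, rfl⟩⟩
    simp only [e]
    exact h
  · intro V Γ _ P hP hV
    refine hprog V Γ P hP ?_
    have h1 : (Fintype.card V : ℝ) ≤ 2 ^ s := by exact_mod_cast hV
    refine h1.trans ?_
    rw [← Real.rpow_natCast]
    exact Real.rpow_le_rpow_of_exponent_le (by norm_num) (by linarith)

end Pool.Agent.KG
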