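import Pool.Agent.KF.FinX
import Pool.Agent.KG.Defs

/-! The generator fools deterministic programs with a stack. -/

namespace Pool.Agent.KG

open Finset Pool.Agent.SemRO Pool.Agent.KD Pool.Agent.KNL Pool.Agent.KE Pool.Agent.KF

lemma sg_xor (a b : Bool) : sg (xor a b) = sg a * sg b := by cases a <;> cases b <;> rfl

/-- the appended letters -/
noncomputable def E {N : ℕ} (s : Fin N → Bool) (i : ℕ) : Bool := decide (out (List.ofFn s) i = 1)

lemma toIn_gen_lt {N r : ℕ} (s : Fin N → Bool) (i : Fin (N + r)) (hi : (i : ℕ) < N) :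
    toIn (N + r) (gen r (List.ofFn s)) i = s ⟨i, hi⟩ := by
  unfold toIn gen
  rw [List.getD_append _ _ _ _ (by rw [List.length_ofFn]; exact hi), getD_ofFn _ _ hi]

lemma toIn_gen_ge {N r : ℕ} (hr : r ≤ 27 * nn N) (s : Fin N → Bool) (i : Fin (N + r)) (hi : N ≤ (i : ℕ)) :
    toIn (N + r) (gen r (List.ofFn s)) i = E s (i - N) := by
  unfold toIn gen
  have h1 := i.2
  have h2 : (i : ℕ) - N < r := by omega
  rw [List.getD_append_right _ _ _ _ (by rw [List.length_ofFn]; exact hi), List.length_ofFn,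
    List.getD_eq_getElem?_getD, List.getElem?_take, if_pos h2]
  unfold extra
  rw [List.getElem?_ofFn, dif_pos (by rw [List.length_ofFn]; omega)]
  rfl

/-- inclusion of words in terms of signs -/
lemma ind_eq {r : ℕ} (u v : Fin r → Bool) : (if u = v then (2 : ℝ) ^ r else 0) =
    ∑ J ∈ (univ : Finset (Fin r)).powerset, ∏ i ∈ J, (sg (xor (u i) (v i)) : ℝ) := by
  rw [← Finset.prod_one_add]
  by_cases h : u = v
  · rw [if_pos h, h]
    have : ∀ i : Fin r, (1 : ℝ) + (sg (xor (v i) (v i)) : ℝ) = 2 := by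
      intro i
      cases v i <;> norm_num [sg]
    rw [Finset.prod_congr rfl fun i _ => this i, Finset.prod_const, Finset.card_univ, Fintype.card_fin]
  · rw [if_neg h]
    obtain ⟨i, hi⟩ := Function.ne_iff.1 h
    symm
    refine Finset.prod_eq_zero (Finset.mem_univ i) ?_
    cases hu : u i <;> cases hv : v i <;> simp_all [sg]

/-- the product of signs is the sign of a sum of coefficients and letters -/
lemma prod_sg {N r : ℕ} (w : Fin (N + r) → Bool) (J : Finset (Fin r)) :
    ∏ i ∈ J, (sg (xor (E (pre (Nat.le_add_right N r) w) i) (w (Fin.natAdd N i))) : ℝ) =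
      (sg (xor (decide (∑ j ∈ J.map Fin.valEmbedding,
        out (List.ofFn (pre (Nat.le_add_right N r) w)) j = 1))
        (decide (∑ i ∈ J, (if w (Fin.natAdd N i) = true then (1 : ZMod 2) else 0) = 1))) : ℝ) := by
  have h1 : ∏ i ∈ J, sg (xor (E (pre (Nat.le_add_right N r) w) i) (w (Fin.natAdd N i))) =
      sg (xor (decide (∑ j ∈ J.map Fin.valEmbedding,
        out (List.ofFn (pre (Nat.le_add_right N r) w)) j = 1))
        (decide (∑ i ∈ J, (if w (Fin.natAdd N i) = true then (1 : ZMod 2) else 0) = 1))) := by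
    have e1 : ∀ i : Fin r, sg (xor (E (pre (Nat.le_add_right N r) w) i) (w (Fin.natAdd N i))) =
        chi (out (List.ofFn (pre (Nat.le_add_right N r) w)) i) *
          chi (if w (Fin.natAdd N i) = true then 1 else 0) := by
      intro i
      rw [sg_xor]
      unfold E
      rw [sg_chi]
      congr 1
      cases w (Fin.natAdd N i) <;> simp [sg, chi]
    rw [Finset.prod_congr rfl fun i _ => e1 i, Finset.prod_mul_distrib, chi_sum, chi_sum, sg_xor, sg_chi,
      sg_chi, Finset.sum_map]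
    rfl
  rw [← h1]
  push_cast
  rfl

/-- **The generator fools deterministic programs with a stack.** -/
theorem gen_prog (hsplit : SplitStack) (hF : FamilyX) : ∃ c : ℕ, ∀ k, 2 ≤ k → ∀ N r, k ^ (c * k) ≤ N →
    r * k ^ (c * k) ≤ N → ∀ (V Γ : Type) [Fintype V] (P : SBP V Γ (Fin (N + r))), Det P →
    (Fintype.card V : ℝ) ≤ 2 ^ ((N : ℝ) / (k : ℝ) ^ (c * k)) →
    ∀ (A : Finset (Fin N → Bool)) (B : Finset (Fin (N + r) → Bool)),
    (∀ s, s ∈ A ↔ ∃ l, P.AccWalk (toIn (N + r) (gen r (List.ofFn s))) l ∧ l.length ≤ k * (N + r)) →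
    (∀ w, w ∈ B ↔ ∃ l, P.AccWalk w l ∧ l.length ≤ k * (N + r)) →
      |(A.card : ℝ) / 2 ^ N - (B.card : ℝ) / 2 ^ (N + r)| ≤
        1 / 2 ^ (4 * (N : ℝ) / (k : ℝ) ^ (c * k)) := by
  classical
  obtain ⟨c, hc⟩ := corrJ hsplit hF
  refine ⟨c + 12, fun k hk N r hkN hr V Γ _ P hP hV A B hA hB => ?_⟩
  have hk0 : 0 < k := by omega
  have hck : k ^ (c * k) ≤ k ^ ((c + 12) * k) :=
    Nat.pow_le_pow_right hk0 (Nat.mul_le_mul_right _ (by omega))
  have hbig : 2 ^ 24 ≤ k ^ ((c + 12) * k) := by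
    calc 2 ^ 24 ≤ k ^ 24 := Nat.pow_le_pow_left hk 24
      _ ≤ k ^ ((c + 12) * k) := Nat.pow_le_pow_right hk0 (by nlinarith)
  have hr24 : r * 2 ^ 24 ≤ N := (Nat.mul_le_mul_left _ hbig).trans hr
  have h165 := lt_nn N
  have hrM : r ≤ 27 * nn N := by omega
  have hkr : (2 : ℝ) ≤ k := by exact_mod_cast hk
  have hkr0 : (0 : ℝ) < k := by linarith
  have hcR : (0 : ℝ) < (k : ℝ) ^ (c * k) := by positivity
  have hcR' : (0 : ℝ) < (k : ℝ) ^ ((c + 12) * k) := by positivity
  have hckR : (k : ℝ) ^ (c * k) ≤ (k : ℝ) ^ ((c + 12) * k) := by exact_mod_cast hck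
  have hN0 : (0 : ℝ) ≤ N := Nat.cast_nonneg _
  have hr0 : (0 : ℝ) ≤ r := Nat.cast_nonneg _
  obtain ⟨t, ht⟩ : ∃ t : ℝ, t = (N : ℝ) / (k : ℝ) ^ ((c + 12) * k) := ⟨_, rfl⟩
  have ht1 : 1 ≤ t := by
    rw [ht, le_div_iff₀ hcR', one_mul]
    exact_mod_cast hkN
  have htr : (r : ℝ) ≤ t := by
    rw [ht, le_div_iff₀ hcR']
    exact_mod_cast hr
  have ht2 : t ≤ ((N + r : ℕ) : ℝ) / (k : ℝ) ^ (c * k) := by
    rw [ht]
    push_cast
    calc (N : ℝ) / (k : ℝ) ^ ((c + 12) * k) ≤ (N : ℝ) / (k : ℝ) ^ (c * k) :=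
          div_le_div_of_nonneg_left hN0 hcR hckR
      _ ≤ ((N : ℝ) + r) / (k : ℝ) ^ (c * k) := by
          rw [div_le_div_iff_of_pos_right hcR]
          linarith
  have hNr := Nat.le_add_right N r
  -- one set of coefficients
  have hJ : ∀ J : Finset (Fin r), J.Nonempty →
      |∑ w ∈ B, ∏ i ∈ J, (sg (xor (E (pre hNr w) i) (w (Fin.natAdd N i))) : ℝ)| ≤
        2 ^ (N + r) / 2 ^ (6 * t) := by
    intro J hJne
    have h := hc k hk N (N + r) hNr (hck.trans hkN) (by omega) (J.map Fin.valEmbedding)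
      (hJne.map) (fun j hj => by
        obtain ⟨i, _, rfl⟩ := Finset.mem_map.1 hj
        have := i.2
        simp only [Fin.valEmbedding_apply]
        omega)
      (fun w => decide (∑ i ∈ J, (if w (Fin.natAdd N i) = true then (1 : ZMod 2) else 0) = 1))
      (fun y y' hyy => by
        have : ∀ i : Fin r, y (Fin.natAdd N i) = y' (Fin.natAdd N i) := fun i =>
          hyy _ (by simp)
        simp only [this])
      V Γ P hP (hV.trans (Real.rpow_le_rpow_of_exponent_le (by norm_num) (by rw [← ht]; exact ht2)))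
      B hB
    rw [Finset.sum_congr rfl fun w _ => prod_sg w J]
    refine h.trans ?_
    refine div_le_div_of_nonneg_left (by positivity) (by positivity) ?_
    refine Real.rpow_le_rpow_of_exponent_le (by norm_num) ?_
    rw [mul_div_assoc]
    linarith
  -- the number of accepted outputs
  have hcard : (2 : ℝ) ^ r * A.card = ∑ w ∈ B, (if (fun i : Fin r => E (pre hNr w) i) =
      (fun i => w (Fin.natAdd N i)) then (2 : ℝ) ^ r else 0) := by
    rw [← Finset.sum_filter, Finset.sum_const, nsmul_eq_mul, mul_comm]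
    congr 2
    refine Finset.card_bij' (fun s _ => toIn (N + r) (gen r (List.ofFn s))) (fun w _ => pre hNr w) ?_ ?_ ?_ ?_
    · intro s hs
      rw [Finset.mem_filter, hB, ← hA]
      refine ⟨hs, ?_⟩
      funext i
      have e1 : pre hNr (toIn (N + r) (gen r (List.ofFn s))) = s := by
        funext j
        exact toIn_gen_lt s (Fin.castLE hNr j) j.2
      rw [e1, toIn_gen_ge hrM s _ (by simp)]
      simp
    · intro w hw
      rw [Finset.mem_filter, hB] at hw
      rw [hA]
      have e2 : toIn (N + r) (gen r (List.ofFn (pre hNr w))) = w := by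
        funext i
        by_cases hi : (i : ℕ) < N
        · rw [toIn_gen_lt _ _ hi]
          rfl
        · push Not at hi
          rw [toIn_gen_ge hrM _ _ hi]
          have h1 := i.2
          have h3 := congrFun hw.2 ⟨(i : ℕ) - N, by omega⟩
          simp only at h3
          rw [h3]
          congr 1
          apply Fin.ext
          simp only [Fin.natAdd_mk]
          omega
      rw [e2]
      exact hw.1
    · intro s _
      funext j
      exact toIn_gen_lt s (Fin.castLE hNr j) j.2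
    · intro w hw
      rw [Finset.mem_filter] at hw
      funext i
      by_cases hi : (i : ℕ) < N
      · rw [toIn_gen_lt _ _ hi]
        rfl
      · push Not at hi
        rw [toIn_gen_ge hrM _ _ hi]
        have h1 := i.2
        have h3 := congrFun hw.2 ⟨(i : ℕ) - N, by omega⟩
        simp only at h3
        rw [h3]
        congr 1
        apply Fin.ext
        simp only [Fin.natAdd_mk]
        omega
  have hsum : (2 : ℝ) ^ r * A.card = B.card + ∑ J ∈ (univ : Finset (Fin r)).powerset.erase ∅,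
      ∑ w ∈ B, ∏ i ∈ J, (sg (xor (E (pre hNr w) i) (w (Fin.natAdd N i))) : ℝ) := by
    rw [hcard, Finset.sum_congr rfl fun w _ => ind_eq _ _, Finset.sum_comm,
      ← Finset.add_sum_erase _ _ (Finset.empty_mem_powerset _)]
    congr 1
    simp
  have hdiff : |(2 : ℝ) ^ r * A.card - B.card| ≤ 2 ^ r * (2 ^ (N + r) / 2 ^ (6 * t)) := by
    rw [hsum, add_sub_cancel_left]
    refine (Finset.abs_sum_le_sum_abs _ _).trans ?_
    calc ∑ J ∈ (univ : Finset (Fin r)).powerset.erase ∅,
          |∑ w ∈ B, ∏ i ∈ J, (sg (xor (E (pre hNr w) i) (w (Fin.natAdd N i))) : ℝ)|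
        ≤ ∑ _J ∈ (univ : Finset (Fin r)).powerset.erase ∅, (2 : ℝ) ^ (N + r) / 2 ^ (6 * t) :=
          Finset.sum_le_sum fun J hJm =>
            hJ J (Finset.nonempty_iff_ne_empty.2 (Finset.ne_of_mem_erase hJm))
      _ ≤ ∑ _J ∈ (univ : Finset (Fin r)).powerset, (2 : ℝ) ^ (N + r) / 2 ^ (6 * t) :=
          Finset.sum_le_sum_of_subset_of_nonneg (Finset.erase_subset _ _)
            fun _ _ _ => by positivity
      _ = 2 ^ r * (2 ^ (N + r) / 2 ^ (6 * t)) := by
          rw [Finset.sum_const, Finset.card_powerset, Finset.card_univ, Fintype.card_fin, nsmul_eq_mul]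
          push_cast
          ring
  have e4 : 4 * (N : ℝ) / (k : ℝ) ^ ((c + 12) * k) = 4 * t := by rw [ht]; ring
  rw [e4]
  have hp : (0 : ℝ) < 2 ^ (N + r) := by positivity
  have e5 : (A.card : ℝ) / 2 ^ N - (B.card : ℝ) / 2 ^ (N + r) =
      (2 ^ r * A.card - B.card) / 2 ^ (N + r) := by
    rw [pow_add]
    field_simp
  rw [e5, abs_div, abs_of_pos hp, div_le_iff₀ hp]
  refine hdiff.trans ?_
  have h6 : (2 : ℝ) ^ r / 2 ^ (6 * t) ≤ 1 / 2 ^ (4 * t) := by
    rw [div_le_div_iff₀ (by positivity) (by positivity), one_mul, ← Real.rpow_natCast,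
      ← Real.rpow_add (by norm_num)]
    exact Real.rpow_le_rpow_of_exponent_le (by norm_num) (by linarith)
  calc (2 : ℝ) ^ r * (2 ^ (N + r) / 2 ^ (6 * t)) = 2 ^ r / 2 ^ (6 * t) * 2 ^ (N + r) := by ring
    _ ≤ 1 / 2 ^ (4 * t) * 2 ^ (N + r) := mul_le_mul_of_nonneg_right h6 hp.le

end Pool.Agent.KG
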