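import Pool.Agent.KG.Defs
import Pool.Agent.KF.PTimeX

/-! The coefficients of `b * a ^ x` in the field with the explicit modulus are computed in polynomial time. -/

namespace Pool.Agent.KG

open Pool.Agent.PolyTime Pool.Agent.KNL Pool.Agent.KE Pool.Agent.KF
open Pool.Agent.KE.PTimeAux (pfBits_of_pd getD_map_range toNat_cast mod2_cast)
open Pool.Agent.KF.PXAux

namespace PGAux

open Polynomial Finset

theorem pc_extra : PC extra := by
  classical
  have h1 : PC (fun y => stp^[y.length] y) :=
    pfBits_stp.iterate (fun x => (len_stp x).le) (c := fun y => y.length) PF.len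
  have h2 : PC (fun y : List Bool => (List.range (MM y)).map (fun i => decide (FinG y i))) :=
    (pfBits_of_pd (L := fun y => MM y) (Q := fun y i => FinG y i) pf_MM (pd_FinG PF.snd)).pc
  refine (h2.comp (h1.comp pc_ini)).congr fun x => ?_
  change (List.range (MM (fst x))).map (fun i => decide (FinG (fst x) i)) = extra x
  rw [MM_fst]
  unfold extra
  refine List.ext_getElem (by simp) fun i h1 h2 => ?_
  have hi : i < 27 * nn x.length := by simpa using h1
  rw [List.getElem_map, List.getElem_range, List.getElem_ofFn, decide_eq_decide.mpr (finG_iff x hi)]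

/-- the letters of the output of the generator, read from the final state -/
def GQ (y : List Bool) (i : ℕ) : Prop :=
  (i < N0 y ∧ bt y 0 i = 1) ∨ (¬ i < N0 y ∧ FinG y (i - N0 y))

theorem N0_fst (x : List Bool) : N0 (fst x) = x.length := N0_of (len_iter x _)

theorem bt_fst (x : List Bool) {i : ℕ} (hi : i < x.length) : bt (fst x) 0 i = 1 ↔ x.getD i false = true := by
  obtain ⟨_, h2, _, _⟩ := inv x rfl rfl (ini x).length
  have := h2 i (by omega)
  unfold fst
  rw [this]
  cases x.getD i false <;> simp

theorem length_extra (s : List Bool) : (extra s).length = 27 * nn s.length := by simp [extra]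

theorem pc_gen {r : ℕ → ℕ} (hr : PF (fun (y : List Bool) (_ : Unit) => r (N0 y))) :
    PC (fun s => s ++ (extra s).take (r s.length)) := by
  classical
  have h1 : PC (fun y => stp^[y.length] y) :=
    pfBits_stp.iterate (fun x => (len_stp x).le) (c := fun y => y.length) PF.len
  have hQ : PD (fun (y : List Bool) (t : Unit × ℕ) => GQ y t.2) :=
    ((PD.lt PF.snd pf_N0).and (PD.eq (pf_bt (PF.const 0) PF.snd) (PF.const 1))).or
      ((PD.lt PF.snd pf_N0).not.and (pd_FinG (PF.snd.sub pf_N0)))
  have hL : PF (fun (y : List Bool) (_ : Unit) => N0 y + min (r (N0 y)) (MM y)) := by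
    refine (pf_N0.add (PF.ite (PD.le hr pf_MM) hr pf_MM)).congr fun y _ => ?_
    by_cases h : r (N0 y) ≤ MM y
    · rw [if_pos h, min_eq_left h]
    · rw [if_neg h, min_eq_right (not_le.1 h).le]
  have h2 : PC (fun y : List Bool => (List.range (N0 y + min (r (N0 y)) (MM y))).map
      (fun i => decide (GQ y i))) :=
    (pfBits_of_pd (L := fun y => N0 y + min (r (N0 y)) (MM y)) (Q := fun y i => GQ y i) hL hQ).pc
  refine (h2.comp (h1.comp pc_ini)).congr fun x => ?_
  change (List.range (N0 (fst x) + min (r (N0 (fst x))) (MM (fst x)))).map
    (fun i => decide (GQ (fst x) i)) = x ++ (extra x).take (r x.length)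
  rw [MM_fst, N0_fst]
  refine List.ext_getElem (by simp [length_extra]) fun i h1 h2 => ?_
  have hi : i < x.length + min (r x.length) (27 * nn x.length) := by simpa using h1
  rw [List.getElem_map, List.getElem_range]
  by_cases hx : i < x.length
  · rw [List.getElem_append_left hx]
    have : GQ (fst x) i ↔ x[i] = true := by
      unfold GQ
      rw [N0_fst, bt_fst x hx]
      simp [hx]
    rw [Bool.eq_iff_iff, decide_eq_true_iff]
    exact this
  · rw [List.getElem_append_right (not_lt.1 hx), List.getElem_take]
    have hj : i - x.length < 27 * nn x.length := by omega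
    have : GQ (fst x) i ↔ out x (i - x.length) = 1 := by
      unfold GQ
      rw [N0_fst, finG_iff x hj]
      simp [hx]
    rw [Bool.eq_iff_iff, decide_eq_true_iff, this]
    simp [extra]

end PGAux

/-- The generator, with `N / d` new letters, is computed in polynomial time. -/
theorem ptime_gen (d : ℕ) : Nonempty (Turing.TM2ComputableInPolyTime (id : List Bool → List Bool)
    (id : List Bool → List Bool) (fun s => s ++ (extra s).take (s.length / d))) :=
  (PGAux.pc_gen (r := fun N => N / d) (pf_N0.div (PF.const d))).polyTime

/-- The coefficients of `b * a ^ x` are computed in polynomial time. -/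
theorem ptime_extra : Nonempty (Turing.TM2ComputableInPolyTime (id : List Bool → List Bool)
    (id : List Bool → List Bool) extra) := PGAux.pc_extra.polyTime

end Pool.Agent.KG
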